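import Mathlib
import Pool.Prelude.Def_F_c31e40fa
import Pool.Agent.Work.MP_c6f924_an_cusp.Cusp

namespace Pool.Agent.Results.MP_c6f924_an.CuspHorn

open N62a1eb23

/-- Near its cusp `1/4` the Mandelbrot set stays away from the real axis: with
`r = Re c - 1/4 > 0` small, every `c` in it has `|Im c| > (7/5) r ^ (3/2)`. -/
theorem result : ∃ h₀ : ℝ, 0 < h₀ ∧ ∀ c ∈ mandelbrotSet, 1 / 4 < c.re → c.re < 1 / 4 + h₀ →
    49 * (c.re - 1 / 4) ^ 3 < 25 * c.im ^ 2 :=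
  MPc6f924C.cuspHorn

end Pool.Agent.Results.MP_c6f924_an.CuspHorn
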