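import Pool.Agent.Work.MP_c6f924_an.Topo

set_option autoImplicit false

namespace Pool.Agent.Results.MP_c6f924_an.FinitaryForm

open Set Metric N62a1eb23

/-- Put `P n c` for the `n`-th iterate of `0` under `z ↦ z ^ 2 + c`. The Mandelbrot set is locally
connected if and only if parameters with periodic critical point that are close to each other lie
in a small connected subset of the Mandelbrot set; and if and only if, uniformly in `n ∈ S`, any
two zeros of `P n` that are close to each other are joined by a path in a small part of the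
lemniscate domain `‖P n c‖ < 3`. Here `S` is any set of positive integers such that every positive
integer divides an element of `S`. -/
theorem result :
    (LocallyConnectedSpace mandelbrotSet ↔
      ∀ ε : ℝ, 0 < ε → ∃ δ : ℝ, 0 < δ ∧ ∀ i j : ℕ, 1 ≤ i → 1 ≤ j → ∀ a b : ℂ,
        (fun z : ℂ ↦ z ^ 2 + a)^[i] 0 = 0 → (fun z : ℂ ↦ z ^ 2 + b)^[j] 0 = 0 → dist a b < δ →
          ∃ C ⊆ mandelbrotSet ∩ ball a ε, IsConnected C ∧ a ∈ C ∧ b ∈ C) ∧
    ∀ S : Set ℕ, 0 ∉ S → (∀ d : ℕ, 1 ≤ d → ∃ n ∈ S, d ∣ n) →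
      (LocallyConnectedSpace mandelbrotSet ↔
        ∀ ε : ℝ, 0 < ε → ∃ δ : ℝ, 0 < δ ∧ ∀ n ∈ S, ∀ a b : ℂ,
          (fun z : ℂ ↦ z ^ 2 + a)^[n] 0 = 0 → (fun z : ℂ ↦ z ^ 2 + b)^[n] 0 = 0 → dist a b < δ →
            JoinedIn {c : ℂ | ‖(fun z : ℂ ↦ z ^ 2 + c)^[n] 0‖ < 3 ∧ dist c a < ε} a b) := by
  obtain ⟨h1, h2⟩ := Pool.Agent.Work.MP_c6f924_an.main
  refine ⟨h1.trans ?_, fun S hS0 hS => h2 S ⟨hS0, hS⟩⟩
  constructor
  · intro h ε hε
    obtain ⟨δ, hδ, H⟩ := h ε hε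
    refine ⟨δ, hδ, fun i j hi hj a b ha hb hab => ?_⟩
    obtain ⟨C, hC, hCp, haC, hbC⟩ := H i j hi hj a b ha hb hab
    exact ⟨C, hC, ⟨⟨a, haC⟩, hCp⟩, haC, hbC⟩
  · intro h ε hε
    obtain ⟨δ, hδ, H⟩ := h ε hε
    refine ⟨δ, hδ, fun i j hi hj a b ha hb hab => ?_⟩
    obtain ⟨C, hC, hCp, haC, hbC⟩ := H i j hi hj a b ha hb hab
    exact ⟨C, hC, hCp.2, haC, hbC⟩

end Pool.Agent.Results.MP_c6f924_an.FinitaryForm
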