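import Mathlib
import Pool.Prelude.Def_F_c31e40fa
import Pool.Agent.Work.MP_c6f924_an.HornB

namespace Pool.Agent.Results.MP_c6f924_an.PinchHorn

open N62a1eb23

/-- Near `-3/4` the closed region between the vertical line `Re c = -3/4` and the parabola
`Re c + 3/4 = -(5/4) (Im c)²` contains no point of the Mandelbrot set other than `-3/4`. -/
theorem result : ∃ h₀ : ℝ, 0 < h₀ ∧ ∀ c ∈ mandelbrotSet, |c.im| < h₀ →
    -(5 / 4 * c.im ^ 2) ≤ c.re + 3 / 4 → c.re + 3 / 4 ≤ 0 → c = -3 / 4 :=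
  MPc6f924.hornB

end Pool.Agent.Results.MP_c6f924_an.PinchHorn
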